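import Mathlib

/-!
Every lattice that embeds into the lattice of all subspaces of a left vector space over a
division ring already embeds into the lattice of all subspaces of a vector space over a
field, namely of the same abelian group seen as a vector space over the centre.
-/

namespace Pool.Agent.Results.MP_332034_al.SkewToField

universe u v w

/-- `L` embeds (as a lattice, binary meets and joins preserved) into the lattice of all
subspaces of some left vector space over some division ring. -/
def EmbedsSkew (L : Type u) [Lattice L] : Prop :=
  ∃ (D : Type v) (_ : DivisionRing D) (V : Type w) (_ : AddCommGroup V) (_ : Module D V)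
    (φ : L → Submodule D V), Function.Injective φ ∧
      (∀ a b, φ (a ⊓ b) = φ a ⊓ φ b) ∧ (∀ a b, φ (a ⊔ b) = φ a ⊔ φ b)

/-- `L` embeds (as a lattice, binary meets and joins preserved) into the lattice of all
subspaces of some vector space over some field. -/
def EmbedsField (L : Type u) [Lattice L] : Prop :=
  ∃ (F : Type v) (_ : Field F) (W : Type w) (_ : AddCommGroup W) (_ : Module F W)
    (φ : L → Submodule F W), Function.Injective φ ∧
      (∀ a b, φ (a ⊓ b) = φ a ⊓ φ b) ∧ (∀ a b, φ (a ⊔ b) = φ a ⊔ φ b)

/-- The negated forms of Q1 and (hence) of Q2: a lattice embeds into the subspace lattice of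
some skew vector space if and only if it embeds into the subspace lattice of some vector
space over a field. -/
theorem result (L : Type u) [Lattice L] :
    EmbedsSkew.{u, v, w} L ↔ EmbedsField.{u, v, w} L := by
  constructor
  · rintro ⟨D, hD, V, hV, hM, φ, hφ, hinf, hsup⟩
    refine ⟨Subring.center D, inferInstance, V, hV, inferInstance,
      fun a => (φ a).restrictScalars (Subring.center D), ?_, ?_, ?_⟩
    · intro a b hab
      exact hφ (Submodule.restrictScalars_injective _ _ _ hab)
    · intro a b
      simp only [hinf]
      rfl
    · intro a b
      simp only [hsup]
      exact map_sup (Submodule.restrictScalarsLatticeHom (Subring.center D) D V) _ _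
  · rintro ⟨F, hF, W, hW, hM, φ, hφ⟩
    exact ⟨F, inferInstance, W, hW, hM, φ, hφ⟩

end Pool.Agent.Results.MP_332034_al.SkewToField
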